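import Pool.Agent.H89.FLT.S

/-!
# LOG: logarithms of the values of the roots
-/

set_option autoImplicit false

open Matrix Polynomial

namespace Pool.FLT

namespace LOGR

theorem aH_sep_lt (n H t : ℕ) (ht : t ≤ H) (i j : Fin n) (hij : (i : ℕ) < j) :
    (H : ℤ) ≤ aH n H t j - aH n H t i ∧ aH n H t j - aH n H t i ≤ 2 * n * H := by
  have hjn : ((j : ℕ) : ℤ) + 1 ≤ n := by exact_mod_cast j.2
  have hij' : ((i : ℕ) : ℤ) + 1 ≤ ((j : ℕ) : ℤ) := by exact_mod_cast hij
  have hi0 : (0 : ℤ) ≤ ((i : ℕ) : ℤ) := Int.natCast_nonneg _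
  have ht' : (t : ℤ) ≤ H := by exact_mod_cast ht
  have ht0 : (0 : ℤ) ≤ (t : ℤ) := Int.natCast_nonneg _
  have hH0 : (0 : ℤ) ≤ (H : ℤ) := Int.natCast_nonneg _
  unfold aH
  by_cases hj1 : (j : ℕ) = 1
  · have hi1 : (i : ℕ) = 0 := by omega
    have hn2 : (2 : ℤ) ≤ n := by
      have := j.2
      exact_mod_cast (by omega : 2 ≤ n)
    rw [if_pos hj1, if_neg (by omega), hj1, hi1]
    push_cast
    constructor
    · nlinarith
    · nlinarith [mul_le_mul_of_nonneg_right hn2 hH0]
  · rw [if_neg hj1]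
    by_cases hi1 : (i : ℕ) = 1
    · have hij2 : (2 : ℤ) ≤ ((j : ℕ) : ℤ) := by exact_mod_cast (by omega : 2 ≤ (j : ℕ))
      rw [if_pos hi1, hi1]
      push_cast
      constructor
      · nlinarith [mul_le_mul_of_nonneg_right hij2 hH0]
      · nlinarith [mul_le_mul_of_nonneg_right hjn hH0]
    · rw [if_neg hi1]
      constructor
      · nlinarith [mul_le_mul_of_nonneg_right hij' hH0]
      · nlinarith [mul_le_mul_of_nonneg_right hjn hH0, mul_nonneg hi0 hH0]

theorem aH_sep (n H t : ℕ) (ht : t ≤ H) (i j : Fin n) (hij : i ≠ j) :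
    (H : ℝ) ≤ |(aH n H t i : ℝ) - aH n H t j| ∧ |(aH n H t i : ℝ) - aH n H t j| ≤ 2 * n * H := by
  have hij' : (i : ℕ) ≠ j := fun h => hij (Fin.ext h)
  have key : ∀ a b : Fin n, (a : ℕ) < b →
      (H : ℝ) ≤ |(aH n H t b : ℝ) - aH n H t a| ∧
        |(aH n H t b : ℝ) - aH n H t a| ≤ 2 * n * H := by
    intro a b hab
    obtain ⟨h1, h2⟩ := aH_sep_lt n H t ht a b hab
    have h1' : (H : ℝ) ≤ (aH n H t b : ℝ) - aH n H t a := by exact_mod_cast h1
    have h2' : (aH n H t b : ℝ) - aH n H t a ≤ 2 * n * H := by exact_mod_cast h2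
    have h0 : (0 : ℝ) ≤ H := Nat.cast_nonneg _
    rw [abs_of_nonneg (h0.trans h1')]
    exact ⟨h1', h2'⟩
  rcases Nat.lt_or_gt_of_ne hij' with h | h
  · rw [abs_sub_comm]
    exact key i j h
  · exact key j i h

/-- the first `n - 1` coordinates -/
noncomputable def prj (n : ℕ) : aa n →ₗ[ℝ] (Fin (n - 1) → ℝ) where
  toFun x := fun i => co x (Fin.castLE (Nat.sub_le n 1) i)
  map_add' x y := by
    funext i
    simp [co]
  map_smul' c x := by
    funext i
    simp [co]

theorem norm_le (n : ℕ) (x : aa n) (B : ℝ) (hB : 0 ≤ B) (h : ∀ i, |co x i| ≤ B) :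
    ‖x‖ ≤ n * B := by
  have h1 : ‖x‖ = ‖(x : EuclideanSpace ℝ (Fin n))‖ := rfl
  rw [h1, EuclideanSpace.norm_eq]
  have hn : (0 : ℝ) ≤ n * B := mul_nonneg (Nat.cast_nonneg _) hB
  rw [Real.sqrt_le_left hn]
  have h2 : ∑ i, ‖(x : EuclideanSpace ℝ (Fin n)) i‖ ^ 2 ≤ ∑ _i : Fin n, B ^ 2 := by
    refine Finset.sum_le_sum fun i _ => ?_
    have h3 : ‖(x : EuclideanSpace ℝ (Fin n)) i‖ ≤ B := h i
    exact pow_le_pow_left₀ (norm_nonneg _) h3 2
  refine h2.trans ?_
  rw [Finset.sum_const, Finset.card_univ, Fintype.card_fin, nsmul_eq_mul, mul_pow]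
  refine mul_le_mul_of_nonneg_right ?_ (sq_nonneg B)
  rcases Nat.eq_zero_or_pos n with h0 | h0
  · subst h0; norm_num
  · have : (1 : ℝ) ≤ n := by exact_mod_cast h0
    nlinarith

end LOGR

open LOGR in
theorem log : LOGStmt := by
  intro n hn
  refine ⟨2 * (n : ℝ) * n, 3 * n + 3, ?_, ?_⟩
  · have : (0 : ℝ) < n := by exact_mod_cast (by omega : 0 < n)
    positivity
  intro H t hH ht θ hθ hP
  have hn1 : (2 : ℝ) ≤ n := by exact_mod_cast hn
  have hHn : 3 * (n : ℝ) + 3 ≤ H := by exact_mod_cast hH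
  have hH1 : (1 : ℝ) < H := by linarith
  -- distances
  have hd : ∀ i j : Fin n, i ≠ j →
      (H : ℝ) - 1 / 2 < |θ i - aH n H t j| ∧ |θ i - aH n H t j| < 2 * n * H + 1 / 2 := by
    intro i j hij
    obtain ⟨h1, h2⟩ := aH_sep n H t ht i j hij
    have h3 := hθ i
    have e1 : θ i - (aH n H t j : ℝ) = (θ i - aH n H t i) + ((aH n H t i : ℝ) - aH n H t j) := by
      ring
    have h4 : |θ i - (aH n H t j : ℝ)| ≤ |θ i - aH n H t i| + |(aH n H t i : ℝ) - aH n H t j| := by
      rw [e1]; exact abs_add_le _ _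
    have e2 : (aH n H t i : ℝ) - aH n H t j = (θ i - aH n H t j) + -(θ i - aH n H t i) := by
      ring
    have h5 : |(aH n H t i : ℝ) - aH n H t j| ≤ |θ i - aH n H t j| + |θ i - aH n H t i| := by
      rw [e2]
      refine (abs_add_le _ _).trans ?_
      rw [abs_neg]
    constructor <;> linarith
  -- the product
  have hprod : ∀ j : Fin n, ∏ i, |θ i - (aH n H t j : ℝ)| = 1 := by
    intro j
    have h1 := congrArg (fun p : ℝ[X] => p.eval (aH n H t j : ℝ)) hP
    simp only [eval_add, eval_one, eval_prod, eval_sub, eval_X, eval_C] at h1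
    have h2 : ∏ k, ((aH n H t j : ℝ) - aH n H t k) = 0 :=
      Finset.prod_eq_zero (Finset.mem_univ j) (sub_self _)
    rw [h2, zero_add] at h1
    have h3 : ∏ i, |θ i - (aH n H t j : ℝ)| = |∏ i, ((aH n H t j : ℝ) - θ i)| := by
      rw [Finset.abs_prod]
      exact Finset.prod_congr rfl fun i _ => abs_sub_comm _ _
    rw [h3, ← h1, abs_one]
  have hpos : ∀ i j : Fin n, 0 < |θ i - (aH n H t j : ℝ)| := by
    intro i j
    refine lt_of_le_of_ne (abs_nonneg _) fun h => ?_
    have := hprod j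
    rw [Finset.prod_eq_zero (Finset.mem_univ i) h.symm] at this
    exact zero_ne_one this
  have hsum : ∀ j : Fin n, ∑ i, Real.log |θ i - (aH n H t j : ℝ)| = 0 := by
    intro j
    rw [← Real.log_prod fun i _ => (hpos i j).ne', hprod j, Real.log_one]
  obtain ⟨y, hy⟩ : ∃ y : Fin n → aa n, ∀ i j, co (y j) i = Real.log |θ i - (aH n H t j : ℝ)| :=
    ⟨fun j => ⟨WithLp.toLp 2 fun i => Real.log |θ i - (aH n H t j : ℝ)|, hsum j⟩,
      fun i j => rfl⟩
  have hlogpos : ∀ i j : Fin n, i ≠ j → 0 < co (y j) i := by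
    intro i j hij
    rw [hy]
    exact Real.log_pos (by linarith [(hd i j hij).1])
  have hLH : 0 < Real.log H := Real.log_pos hH1
  have hlogle : ∀ i j : Fin n, i ≠ j → co (y j) i ≤ 2 * Real.log H := by
    intro i j hij
    rw [hy]
    have h1 : 2 * Real.log (H : ℝ) = Real.log ((H : ℝ) ^ 2) := by
      rw [Real.log_pow]; norm_num
    rw [h1]
    refine Real.log_le_log (hpos i j) ?_
    have h2 := (hd i j hij).2
    nlinarith
  have hsum' : ∀ j : Fin n, ∑ i, co (y j) i = 0 := fun j => (y j).2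
  have hdiag : ∀ j : Fin n, co (y j) j = - ∑ i ∈ Finset.univ.erase j, co (y j) i := by
    intro j
    have h1 := Finset.add_sum_erase Finset.univ (fun i => co (y j) i) (Finset.mem_univ j)
    have h2 := hsum' j
    have h3 : co (y j) j + ∑ i ∈ Finset.univ.erase j, co (y j) i = 0 := h1.trans h2
    linarith
  have hSle : ∀ j : Fin n, ∑ i ∈ Finset.univ.erase j, co (y j) i ≤ n * (2 * Real.log H) := by
    intro j
    have h1 : ∑ i ∈ Finset.univ.erase j, co (y j) i ≤
        ∑ _i ∈ (Finset.univ.erase j : Finset (Fin n)), 2 * Real.log (H : ℝ) :=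
      Finset.sum_le_sum fun i hi => hlogle i j (Finset.ne_of_mem_erase hi)
    refine h1.trans ?_
    rw [Finset.sum_const, nsmul_eq_mul]
    refine mul_le_mul_of_nonneg_right ?_ (by linarith)
    have h2 : (Finset.univ.erase j : Finset (Fin n)).card ≤ n := by
      have h3 := Finset.card_le_univ (Finset.univ.erase j : Finset (Fin n))
      rwa [Fintype.card_fin] at h3
    exact_mod_cast h2
  have hS0 : ∀ j : Fin n, 0 ≤ ∑ i ∈ Finset.univ.erase j, co (y j) i := fun j =>
    Finset.sum_nonneg fun i hi => (hlogpos i j (Finset.ne_of_mem_erase hi)).le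
  refine ⟨y, ?_, ?_, ?_⟩
  · intro i j
    rw [hy, Real.exp_log (hpos i j)]
  · intro j
    have h1 : ‖y j‖ ≤ n * (n * (2 * Real.log H)) := by
      refine norm_le n (y j) _ (by positivity) fun i => ?_
      by_cases hij : i = j
      · subst hij
        rw [hdiag, abs_neg, abs_of_nonneg (hS0 i)]
        exact hSle i
      · rw [abs_of_nonneg (hlogpos i j hij).le]
        have h2 := hlogle i j hij
        nlinarith
    refine h1.trans (le_of_eq ?_)
    ring
  · refine LinearIndependent.of_comp (prj n) ?_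
    have hdet : (Matrix.of fun j i : Fin (n - 1) =>
        co (y (Fin.castLE (Nat.sub_le n 1) j)) (Fin.castLE (Nat.sub_le n 1) i)).det ≠ 0 := by
      refine det_ne_zero_of_sum_row_lt_diag fun k => ?_
      have hinj : Function.Injective (Fin.castLE (Nat.sub_le n 1)) :=
        Fin.castLE_injective _
      have hlast : (⟨n - 1, by omega⟩ : Fin n) ≠ Fin.castLE (Nat.sub_le n 1) k := by
        intro h
        have h1 := congrArg Fin.val h
        have h2 := k.2
        simp only [Fin.val_castLE] at h1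
        omega
      have e1 : ∑ j ∈ Finset.univ.erase k, ‖(Matrix.of fun j i : Fin (n - 1) =>
          co (y (Fin.castLE (Nat.sub_le n 1) j)) (Fin.castLE (Nat.sub_le n 1) i)) k j‖ =
          ∑ i ∈ (Finset.univ.erase k).map ⟨_, hinj⟩,
            co (y (Fin.castLE (Nat.sub_le n 1) k)) i := by
        rw [Finset.sum_map]
        refine Finset.sum_congr rfl fun i hi => ?_
        have hik : i ≠ k := Finset.ne_of_mem_erase hi
        rw [Matrix.of_apply, Real.norm_eq_abs, abs_of_pos]
        · rfl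
        · exact hlogpos _ _ fun h => hik (hinj h)
      have e2 : ‖(Matrix.of fun j i : Fin (n - 1) =>
          co (y (Fin.castLE (Nat.sub_le n 1) j)) (Fin.castLE (Nat.sub_le n 1) i)) k k‖ =
          ∑ i ∈ Finset.univ.erase (Fin.castLE (Nat.sub_le n 1) k),
            co (y (Fin.castLE (Nat.sub_le n 1) k)) i := by
        rw [Matrix.of_apply, Real.norm_eq_abs, hdiag, abs_neg, abs_of_nonneg (hS0 _)]
      rw [e1, e2]
      refine Finset.sum_lt_sum_of_subset (i := ⟨n - 1, by omega⟩) ?_ ?_ ?_ ?_ ?_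
      · intro i hi
        obtain ⟨a, ha, rfl⟩ := Finset.mem_map.mp hi
        have hak : a ≠ k := Finset.ne_of_mem_erase ha
        exact Finset.mem_erase.mpr ⟨fun h => hak (hinj h), Finset.mem_univ _⟩
      · exact Finset.mem_erase.mpr ⟨hlast, Finset.mem_univ _⟩
      · intro hmem
        obtain ⟨a, _, ha⟩ := Finset.mem_map.mp hmem
        have h1 := congrArg Fin.val ha
        have h2 := a.2
        simp only [Function.Embedding.coeFn_mk, Fin.val_castLE] at h1
        omega
      · exact hlogpos _ _ hlast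
      · intro i hi _
        exact (hlogpos _ _ (Finset.ne_of_mem_erase hi)).le
    have h1 := Matrix.linearIndependent_rows_of_det_ne_zero hdet
    exact h1

end Pool.FLT
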